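import Mathlib

set_option autoImplicit false

namespace Pool.Agent.Results.MP_93e4b7_co.SameGroup

/-- `𝔽₂^r` -/
abbrev V (r : ℕ) : Type := Fin r → ZMod 2

/-- Laplacian of the Cayley multigraph with `μ u` edges between `w` and `w + u` (`u ≠ 0`). -/
def lap {r : ℕ} (μ : V r → ℕ) : Matrix (V r) (V r) ℤ := fun w w' =>
  if w = w' then ∑ u ∈ Finset.univ.erase 0, (μ u : ℤ) else -(μ (w + w') : ℤ)

/-- the sandpile group: the torsion part of the cokernel of the Laplacian -/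
abbrev K {r : ℕ} (μ : V r → ℕ) : Type :=
  Submodule.torsion ℤ ((V r → ℤ) ⧸ LinearMap.range (lap μ).mulVecLin)

/-- the support of `μ` on nonzero vectors spans -/
def Spans {r : ℕ} (μ : V r → ℕ) : Prop := Submodule.span (ZMod 2) {u | u ≠ 0 ∧ μ u ≠ 0} = ⊤

/-- `GL`-equivalence -/
def GLEquiv {r : ℕ} (μ ν : V r → ℕ) : Prop :=
  ∃ T : V r ≃ₗ[ZMod 2] V r, ∀ u, u ≠ 0 → ν (T u) = μ u

def ix (w : V 2) : ℕ := (w 0).val + 2 * (w 1).val

def mu (a b : ℕ) : V 2 → ℕ := fun u => [0, a, b, 0].getD (ix u) 0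

def mat (l : List (List ℤ)) : Matrix (V 2) (V 2) ℤ := fun w w' => (l.getD (ix w) []).getD (ix w') 0

def P := mat [[1, 0, 0, 0], [-101, -3, 7, 0], [-14, -1, 2, 0], [115, 5, -8, 1]]
def P' := mat [[1, 0, 0, 0], [104, 2, -7, 0], [59, 1, -3, 0], [-163, -2, 11, 1]]
def Q := mat [[-2, 1, 2, 0], [-17, 8, 10, 0], [0, 0, 1, 0], [84, -28, -56, 1]]
def Q' := mat [[8, -1, -6, 0], [17, -2, -14, 0], [0, 0, 1, 0], [-196, 28, 168, 1]]

theorem spans (a b : ℕ) (ha : a ≠ 0) (hb : b ≠ 0) : Spans (mu a b) := by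
  rw [Spans, eq_top_iff]
  rintro u -
  have : u = u 0 • ![1, 0] + u 1 • ![0, 1] := by revert u; decide
  rw [this]
  exact Submodule.add_mem _ (Submodule.smul_mem _ _ (Submodule.subset_span ⟨by decide, ha⟩))
    (Submodule.smul_mem _ _ (Submodule.subset_span ⟨by decide, hb⟩))

theorem tors {M N : Type} [AddCommGroup M] [AddCommGroup N] (e : M ≃ₗ[ℤ] N) (x : M)
    (h : x ∈ Submodule.torsion ℤ M) : e x ∈ Submodule.torsion ℤ N := by
  obtain ⟨a, ha⟩ := h
  exact ⟨a, by rw [Submonoid.smul_def, ← map_smul, ← Submonoid.smul_def, ha, map_zero]⟩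

theorem result : ∃ (r : ℕ) (μ ν : V r → ℕ), 1 ≤ r ∧ Spans μ ∧ Spans ν ∧
    Nonempty (K μ ≃+ K ν) ∧ ¬ GLEquiv μ ν := by
  refine ⟨2, mu 2 3, mu 1 5, by omega, spans _ _ (by omega) (by omega),
    spans _ _ (by omega) (by omega), ?_, ?_⟩
  · have h1 : P * P' = 1 := by decide +kernel
    have h2 : P' * P = 1 := by decide +kernel
    have h3 : P * lap (mu 2 3) = lap (mu 1 5) * Q := by decide +kernel
    have h4 : lap (mu 1 5) = P * (lap (mu 2 3) * Q') := by decide +kernel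
    let e : (V 2 → ℤ) ≃ₗ[ℤ] (V 2 → ℤ) := LinearEquiv.ofLinearMap P.mulVecLin P'.mulVecLin
      (by rw [← Matrix.mulVecLin_mul, h1, Matrix.mulVecLin_one])
      (by rw [← Matrix.mulVecLin_mul, h2, Matrix.mulVecLin_one])
    have he : (LinearMap.range (lap (mu 2 3)).mulVecLin).map (e : (V 2 → ℤ) →ₗ[ℤ] (V 2 → ℤ)) =
        LinearMap.range (lap (mu 1 5)).mulVecLin := by
      apply le_antisymm
      · rintro _ ⟨_, ⟨x, rfl⟩, rfl⟩
        exact ⟨Q.mulVec x, by
          change (lap _).mulVec _ = P.mulVec ((lap _).mulVec x)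
          rw [Matrix.mulVec_mulVec, Matrix.mulVec_mulVec, h3]⟩
      · rintro _ ⟨x, rfl⟩
        exact ⟨_, ⟨Q'.mulVec x, rfl⟩, by
          change P.mulVec ((lap _).mulVec _) = (lap _).mulVec x
          rw [Matrix.mulVec_mulVec, Matrix.mulVec_mulVec, h4, Matrix.mul_assoc]⟩
    let f := Submodule.Quotient.equiv _ _ e he
    exact ⟨{ toFun := fun x => ⟨f x, tors f _ x.2⟩
             invFun := fun x => ⟨f.symm x, tors f.symm _ x.2⟩
             left_inv := fun x => Subtype.ext (f.symm_apply_apply _)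
             right_inv := fun x => Subtype.ext (f.apply_symm_apply _)
             map_add' := fun x y => Subtype.ext (f.map_add _ _) }⟩
  · rintro ⟨T, h⟩
    have : ∀ u, mu 1 5 u ≠ 2 := by decide
    exact this _ (h ![1, 0] (by decide))

end Pool.Agent.Results.MP_93e4b7_co.SameGroup
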